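import Pool.Agent.H46.SQ.Targets

/-!
# The character sum
-/

set_option autoImplicit false

namespace Pool.Agent.H69.SR

open Finset Pool.Agent.H46.SQ

/-- The harmonic sum. -/
noncomputable def Hs (z : ℕ) : ℝ := ∑ a ∈ Finset.Icc 1 z, 1 / (a : ℝ)

theorem Hs_mono {a b : ℕ} (h : a ≤ b) : Hs a ≤ Hs b := by
  unfold Hs
  refine Finset.sum_le_sum_of_subset_of_nonneg (Finset.Icc_subset_Icc le_rfl h) ?_
  intro i _ _
  positivity

theorem Hs_nonneg (a : ℕ) : 0 ≤ Hs a := Finset.sum_nonneg fun i _ => by positivity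

/-- `F z d = H(z / d) / d`. -/
noncomputable def Fs (z d : ℕ) : ℝ := Hs (z / d) / d

theorem Fs_nonneg (z d : ℕ) : 0 ≤ Fs z d := div_nonneg (Hs_nonneg _) (by positivity)

theorem Fs_anti (z : ℕ) {a b : ℕ} (ha : 1 ≤ a) (h : a ≤ b) : Fs z b ≤ Fs z a := by
  unfold Fs
  have h1 : z / b ≤ z / a := Nat.div_le_div_left h (by omega)
  have h2 : (0 : ℝ) < a := by exact_mod_cast ha
  have h3 : (a : ℝ) ≤ b := by exact_mod_cast h
  exact div_le_div₀ (Hs_nonneg _) (Hs_mono h1) h2 h3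

theorem chi_vals (K : ℕ) :
    (ZMod.χ₈ ((8 * K + 7 : ℕ) : ZMod 8) = 1 ∧ ZMod.χ₈ ((8 * K + 8 : ℕ) : ZMod 8) = 0 ∧
    ZMod.χ₈ ((8 * K + 9 : ℕ) : ZMod 8) = 1 ∧ ZMod.χ₈ ((8 * K + 10 : ℕ) : ZMod 8) = 0) ∧
    (ZMod.χ₈ ((8 * K + 11 : ℕ) : ZMod 8) = -1 ∧ ZMod.χ₈ ((8 * K + 12 : ℕ) : ZMod 8) = 0 ∧
    ZMod.χ₈ ((8 * K + 13 : ℕ) : ZMod 8) = -1 ∧ ZMod.χ₈ ((8 * K + 14 : ℕ) : ZMod 8) = 0) := by
  have h8 : ((8 : ℕ) : ZMod 8) = 0 := by decide
  have hc : ∀ r : ℕ, ((8 * K + r : ℕ) : ZMod 8) = ((r : ℕ) : ZMod 8) := by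
    intro r
    rw [Nat.cast_add, Nat.cast_mul, h8, zero_mul, zero_add]
  rw [hc, hc, hc, hc, hc, hc, hc, hc]
  decide

theorem block (G : ℕ → ℝ) (hG : ∀ a b : ℕ, 1 ≤ a → a ≤ b → G b ≤ G a) (K : ℕ) :
    G 1 - G 3 - G 5 ≤ ∑ d ∈ Finset.Icc 1 (8 * K + 6), (ZMod.χ₈ (d : ZMod 8) : ℝ) * G d := by
  induction K with
  | zero =>
    have h : Finset.Icc 1 (8 * 0 + 6) = {1, 2, 3, 4, 5, 6} := by decide
    rw [h]
    have c1 : ZMod.χ₈ ((1 : ℕ) : ZMod 8) = 1 := by decide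
    have c2 : ZMod.χ₈ ((2 : ℕ) : ZMod 8) = 0 := by decide
    have c3 : ZMod.χ₈ ((3 : ℕ) : ZMod 8) = -1 := by decide
    have c4 : ZMod.χ₈ ((4 : ℕ) : ZMod 8) = 0 := by decide
    have c5 : ZMod.χ₈ ((5 : ℕ) : ZMod 8) = -1 := by decide
    have c6 : ZMod.χ₈ ((6 : ℕ) : ZMod 8) = 0 := by decide
    rw [Finset.sum_insert (by decide), Finset.sum_insert (by decide), Finset.sum_insert (by decide),
      Finset.sum_insert (by decide), Finset.sum_insert (by decide), Finset.sum_singleton,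
      c1, c2, c3, c4, c5, c6]
    push_cast
    linarith
  | succ K ih =>
    obtain ⟨⟨c7, c8, c9, c10⟩, c11, c12, c13, c14⟩ := chi_vals K
    have e : 8 * (K + 1) + 6 = 8 * K + 6 + 1 + 1 + 1 + 1 + 1 + 1 + 1 + 1 := by ring
    rw [e]
    rw [Finset.sum_Icc_succ_top (by omega), Finset.sum_Icc_succ_top (by omega),
      Finset.sum_Icc_succ_top (by omega), Finset.sum_Icc_succ_top (by omega),
      Finset.sum_Icc_succ_top (by omega), Finset.sum_Icc_succ_top (by omega),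
      Finset.sum_Icc_succ_top (by omega), Finset.sum_Icc_succ_top (by omega)]
    have e7 : 8 * K + 6 + 1 = 8 * K + 7 := by ring
    have e8 : 8 * K + 7 + 1 = 8 * K + 8 := by ring
    have e9 : 8 * K + 8 + 1 = 8 * K + 9 := by ring
    have e10 : 8 * K + 9 + 1 = 8 * K + 10 := by ring
    have e11 : 8 * K + 10 + 1 = 8 * K + 11 := by ring
    have e12 : 8 * K + 11 + 1 = 8 * K + 12 := by ring
    have e13 : 8 * K + 12 + 1 = 8 * K + 13 := by ring
    have e14 : 8 * K + 13 + 1 = 8 * K + 14 := by ring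
    rw [e7, e8, e9, e10, e11, e12, e13, e14, c7, c8, c9, c10, c11, c12, c13, c14]
    have h1 := hG (8 * K + 7) (8 * K + 11) (by omega) (by omega)
    have h2 := hG (8 * K + 9) (8 * K + 13) (by omega) (by omega)
    push_cast
    linarith

theorem dc (z : ℕ) : ∑ n ∈ Finset.Icc 1 z, RR n / n =
    ∑ d ∈ Finset.Icc 1 z, (ZMod.χ₈ (d : ZMod 8) : ℝ) * Fs z d := by
  have h1 : ∀ n ∈ Finset.Icc 1 z, RR n / n =
      ∑ d ∈ n.divisors, (ZMod.χ₈ (d : ZMod 8) : ℝ) * (1 / (n : ℝ)) := by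
    intro n _
    unfold RR
    rw [Finset.sum_div]
    exact Finset.sum_congr rfl fun d _ => by ring
  rw [Finset.sum_congr rfl h1]
  rw [Finset.sum_comm' (t' := Finset.Icc 1 z)
    (s' := fun d => (Finset.Icc 1 z).filter (fun n => d ∣ n))]
  · refine Finset.sum_congr rfl fun d hd => ?_
    rw [← Finset.mul_sum]
    congr 1
    have hd1 : 0 < d := by rw [Finset.mem_Icc] at hd; omega
    unfold Fs Hs
    rw [Finset.sum_div]
    symm
    refine Finset.sum_bij (fun m _ => d * m) ?_ ?_ ?_ ?_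
    · intro m hm
      rw [Finset.mem_Icc] at hm
      rw [Finset.mem_filter, Finset.mem_Icc]
      refine ⟨⟨Nat.mul_pos hd1 (by omega), ?_⟩, dvd_mul_right _ _⟩
      rw [mul_comm]
      exact (Nat.le_div_iff_mul_le hd1).1 hm.2
    · intro a _ b _ h
      exact Nat.eq_of_mul_eq_mul_left hd1 h
    · intro n hn
      rw [Finset.mem_filter, Finset.mem_Icc] at hn
      obtain ⟨m, rfl⟩ := hn.2
      refine ⟨m, ?_, rfl⟩
      rw [Finset.mem_Icc]
      refine ⟨Nat.pos_of_mul_pos_left hn.1.1 |> fun h => h, ?_⟩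
      rw [Nat.le_div_iff_mul_le hd1, mul_comm]
      exact hn.1.2
    · intro m _
      push_cast
      rw [div_div, mul_comm]
  · intro n d
    rw [Finset.mem_Icc, Nat.mem_divisors, Finset.mem_filter, Finset.mem_Icc, Finset.mem_Icc]
    constructor
    · rintro ⟨⟨h1, h2⟩, h3, h4⟩
      exact ⟨⟨⟨h1, h2⟩, h3⟩, Nat.pos_of_dvd_of_pos h3 h1, (Nat.le_of_dvd h1 h3).trans h2⟩
    · rintro ⟨⟨⟨h1, h2⟩, h3⟩, _⟩
      exact ⟨⟨h1, h2⟩, h3, by omega⟩

theorem pf_CHAR : T_CHAR := by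
  intro z
  rw [dc]
  have hext : ∑ d ∈ Finset.Icc 1 z, (ZMod.χ₈ (d : ZMod 8) : ℝ) * Fs z d =
      ∑ d ∈ Finset.Icc 1 (8 * z + 6), (ZMod.χ₈ (d : ZMod 8) : ℝ) * Fs z d := by
    refine Finset.sum_subset (Finset.Icc_subset_Icc le_rfl (by omega)) ?_
    intro d _ hd
    rw [Finset.mem_Icc] at hd
    have hF : Fs z d = 0 := by
      unfold Fs Hs
      rcases Nat.eq_zero_or_pos d with h0 | h0
      · subst h0; simp
      · have : z / d = 0 := Nat.div_eq_of_lt (by omega)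
        rw [this]; simp
    rw [hF, mul_zero]
  rw [hext]
  have hb := block (Fs z) (fun a b ha hab => Fs_anti z ha hab) z
  have hH : ∑ a ∈ Finset.Icc 1 z, 1 / (a : ℝ) = Hs z := rfl
  have h1 : Fs z 1 = Hs z := by unfold Fs; simp
  have h3 : Fs z 3 ≤ Hs z / 3 := by
    unfold Fs
    have := Hs_mono (Nat.div_le_self z 3)
    push_cast
    linarith
  have h5 : Fs z 5 ≤ Hs z / 5 := by
    unfold Fs
    have := Hs_mono (Nat.div_le_self z 5)
    push_cast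
    linarith
  rw [hH]
  linarith

end Pool.Agent.H69.SR
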