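import Pool.Agent.H46.SQ.Targets

/-!
# The values of rho at the primes
-/

set_option autoImplicit false

namespace Pool.Agent.H69.SR

open Finset Pool.Agent.H46.SQ

theorem rho_zmod (p : ℕ) [NeZero p] :
    rho p = (Finset.univ.filter (fun r : ZMod p => r * (r ^ 2 - 2) = 0)).card := by
  unfold rho
  refine Finset.card_bij (fun (r : ℕ) _ => (r : ZMod p)) ?_ ?_ ?_
  · intro r hr
    rw [Finset.mem_filter] at hr
    rw [Finset.mem_filter]
    refine ⟨Finset.mem_univ _, ?_⟩
    have := (ZMod.intCast_zmod_eq_zero_iff_dvd ((r : ℤ) * ((r : ℤ) ^ 2 - 2)) p).2 hr.2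
    push_cast at this
    exact this
  · intro a ha b hb h
    rw [Finset.mem_filter, Finset.mem_range] at ha hb
    have h2 := (ZMod.natCast_eq_natCast_iff' a b p).1 h
    rwa [Nat.mod_eq_of_lt ha.1, Nat.mod_eq_of_lt hb.1] at h2
  · intro r hr
    rw [Finset.mem_filter] at hr
    refine ⟨r.val, ?_, ?_⟩
    · rw [Finset.mem_filter, Finset.mem_range]
      refine ⟨ZMod.val_lt r, ?_⟩
      rw [← ZMod.intCast_zmod_eq_zero_iff_dvd]
      push_cast
      rw [ZMod.natCast_zmod_val]
      exact hr.2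
    · exact ZMod.natCast_zmod_val r

theorem rho_odd (p : ℕ) [Fact p.Prime] (hp2 : p ≠ 2) :
    (rho p : ℤ) = 2 + ZMod.χ₈ (p : ZMod 8) := by
  have h2 : (2 : ZMod p) ≠ 0 := by
    have := (ZMod.natCast_eq_zero_iff 2 p)
    intro h
    have h3 : ((2 : ℕ) : ZMod p) = 0 := by exact_mod_cast h
    have h4 := this.1 h3
    have h5 := (Nat.prime_dvd_prime_iff_eq (Fact.out : p.Prime) Nat.prime_two).1 h4
    exact hp2 h5
  have hch : ringChar (ZMod p) ≠ 2 := by
    rw [ZMod.ringChar_zmod_n]; exact hp2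
  have hs : (Finset.univ.filter (fun r : ZMod p => r * (r ^ 2 - 2) = 0)) =
      insert 0 ({x : ZMod p | x ^ 2 = 2}.toFinset) := by
    ext r
    simp only [Finset.mem_filter, Finset.mem_univ, true_and, Finset.mem_insert, Set.mem_toFinset,
      Set.mem_setOf_eq, mul_eq_zero, sub_eq_zero]
  have h0 : (0 : ZMod p) ∉ ({x : ZMod p | x ^ 2 = 2}.toFinset) := by
    simp only [Set.mem_toFinset, Set.mem_setOf_eq]
    intro h
    apply h2
    rw [← h]; simp
  have h3 := quadraticChar_card_sqrts hch (2 : ZMod p)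
  rw [quadraticChar_two hch, ZMod.card] at h3
  rw [rho_zmod, hs, Finset.card_insert_of_notMem h0]
  push_cast
  rw [h3]
  ring

theorem pf_RHO : T_RHO := by
  refine ⟨by decide, fun p hp h2 => ?_, fun p hp => ?_⟩
  · haveI := Fact.mk hp
    exact rho_odd p h2
  · haveI := Fact.mk hp
    rcases eq_or_ne p 2 with h2 | h2
    · subst h2
      have : rho 2 = 1 := by decide
      rw [this]; omega
    · rcases eq_or_ne p 3 with h3 | h3
      · subst h3
        have : rho 3 = 1 := by decide
        rw [this]; omega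
      · have h1 := rho_odd p h2
        have h4 : ZMod.χ₈ (p : ZMod 8) = 0 ∨ ZMod.χ₈ (p : ZMod 8) = 1 ∨
          ZMod.χ₈ (p : ZMod 8) = -1 := ZMod.isQuadratic_χ₈ _
        have hp1 := hp.two_le
        have h5 : p ≠ 4 := by
          rintro rfl
          exact absurd hp (by decide)
        omega

end Pool.Agent.H69.SR
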